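import Pool.Agent.W96.CL.Stm

set_option autoImplicit false

open Polynomial Filter Topology MeasureTheory

namespace W96CL

namespace H368

lemma cosh_shift (a b : ℝ) : Real.cosh (a + b) ≤ Real.exp |b| * Real.cosh a := by
  rw [Real.cosh_eq, Real.cosh_eq]
  have h1 : Real.exp (a + b) ≤ Real.exp |b| * Real.exp a := by
    rw [← Real.exp_add]
    exact Real.exp_le_exp.2 (by linarith [le_abs_self b])
  have h2 : Real.exp (-(a + b)) ≤ Real.exp |b| * Real.exp (-a) := by
    rw [← Real.exp_add]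
    exact Real.exp_le_exp.2 (by linarith [neg_abs_le b])
  linarith

lemma kk_shift (x y : ℝ) : kk x ≤ Real.exp (3 / 2 * |x - y|) * kk y := by
  unfold kk
  have hx : 0 < Real.cosh (3 * x / 2) := Real.cosh_pos _
  have hy : 0 < Real.cosh (3 * y / 2) := Real.cosh_pos _
  have hp := Real.pi_pos
  have h := cosh_shift (3 * x / 2) (3 * (y - x) / 2)
  have e1 : 3 * x / 2 + 3 * (y - x) / 2 = 3 * y / 2 := by ring
  have e2 : |3 * (y - x) / 2| = 3 / 2 * |x - y| := by
    rw [abs_sub_comm x y, show 3 * (y - x) / 2 = 3 / 2 * (y - x) by ring, abs_mul,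
      abs_of_pos (by norm_num : (0 : ℝ) < 3 / 2)]
  rw [e1, e2] at h
  rw [← mul_div_assoc, div_le_div_iff₀ (by positivity) (by positivity)]
  nlinarith [mul_le_mul_of_nonneg_left h (by positivity : 0 ≤ 3 * (4 * Real.pi))]

lemma kc_real (x : ℝ) : kc (x : ℂ) = ((kk x : ℝ) : ℂ) := by
  unfold kc kk
  push_cast
  rfl

/-- points in the open sector -/
lemma sector {w : ℂ} (hw : |w.im| < Real.pi / 3) :
    0 < (Complex.exp w).re ∧ (Complex.exp w).im ^ 2 < 3 * (Complex.exp w).re ^ 2 := by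
  have hp := Real.pi_pos
  have hc : 1 / 2 < Real.cos w.im := by
    rw [← Real.cos_pi_div_three, ← Real.cos_abs w.im]
    exact Real.cos_lt_cos_of_nonneg_of_le_pi (abs_nonneg _) (by linarith) hw
  have he : 0 < Real.exp w.re := Real.exp_pos _
  rw [Complex.exp_re, Complex.exp_im]
  refine ⟨by positivity, ?_⟩
  have h1 := Real.sin_sq_add_cos_sq w.im
  have h2 : Real.sin w.im ^ 2 < 3 * Real.cos w.im ^ 2 := by nlinarith
  have h3 : 0 < Real.exp w.re ^ 2 := by positivity
  nlinarith [mul_lt_mul_of_pos_left h2 h3]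

lemma om_re : om.re = -1 / 2 := rfl
lemma om_im : om.im = Real.sqrt 3 / 2 := rfl

lemma s3 : Real.sqrt 3 * Real.sqrt 3 = 3 := Real.mul_self_sqrt (by norm_num)

lemma om_sq : om ^ 2 = ⟨-1 / 2, -(Real.sqrt 3 / 2)⟩ := by
  apply Complex.ext
  · rw [sq, Complex.mul_re, om_re, om_im]
    nlinarith [s3]
  · rw [sq, Complex.mul_im, om_re, om_im]
    ring

lemma om_cube : om ^ 3 = 1 := by
  have h : om ^ 3 = om ^ 2 * om := by ring
  rw [h, om_sq]
  apply Complex.ext
  · rw [Complex.mul_re, om_re, om_im, Complex.one_re]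
    dsimp only
    nlinarith [s3]
  · rw [Complex.mul_im, om_re, om_im, Complex.one_im]
    dsimp only
    ring

/-- no zeros of `1 - s` -/
lemma one_sub_ne {n : ℕ} {θ : ℝ} {t Q : ℝ[X]} {z0 : ℝ} (h : SQ n θ t Q z0) {w : ℂ}
    (hw : |w.im| < Real.pi / 3) : 1 - sC n θ t w ≠ 0 := by
  intro h0
  set x := Complex.exp w with hx
  obtain ⟨hre, him⟩ := sector hw
  rw [← hx] at hre him
  have hphi : aeval x (phi n θ) = psi n θ x ^ 2 := by
    unfold phi psi
    simp only [map_pow, map_add, map_mul, map_one, aeval_X, aeval_C]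
    rw [← pow_mul, mul_comm n 2]
    congr 1
  have hs : sC n θ t w = aeval x t / psi n θ x ^ 2 := rfl
  by_cases hpz : psi n θ x ^ 2 = 0
  · rw [hs, hpz, div_zero, sub_zero] at h0
    exact one_ne_zero h0
  · have h1 : aeval x t = psi n θ x ^ 2 := by
      rw [hs, sub_eq_zero] at h0
      exact (div_eq_one_iff_eq hpz).1 h0.symm
    have h2 := h.p1.kQ x
    rw [hphi, h1, sub_self] at h2
    obtain ⟨Q1, hQ, hQ1⟩ := h.Qfac
    have hzero : ∀ y : ℂ, aeval y Q = 0 → y = -1 ∨ ∃ a : ℝ, 0 < a ∧ y = a := by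
      intro y hy
      rw [hQ, map_mul, map_add, aeval_X, map_one] at hy
      rcases mul_eq_zero.1 hy with h3 | h3
      · left
        exact eq_neg_of_add_eq_zero_left h3
      · right
        obtain ⟨a, ha, -, he⟩ := hQ1 y h3
        exact ⟨a, ha, he⟩
    have h3 : aeval (om * x) Q = 0 ∨ aeval (om ^ 2 * x) Q = 0 := by
      have : 3 * aeval (om * x) Q * aeval (om ^ 2 * x) Q = 0 := h2.symm
      rcases mul_eq_zero.1 this with h4 | h4
      · left
        rcases mul_eq_zero.1 h4 with h5 | h5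
        · norm_num at h5
        · exact h5
      · right; exact h4
    have key1 : ∀ y : ℂ, om * x = y → x = om ^ 2 * y := by
      intro y hy
      rw [← hy, ← mul_assoc]
      have : om ^ 2 * om = om ^ 3 := by ring
      rw [this, om_cube, one_mul]
    have key2 : ∀ y : ℂ, om ^ 2 * x = y → x = om * y := by
      intro y hy
      rw [← hy, ← mul_assoc]
      have : om * om ^ 2 = om ^ 3 := by ring
      rw [this, om_cube, one_mul]
    rcases h3 with h3 | h3
    · rcases hzero _ h3 with h4 | ⟨a, ha, h4⟩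
      · have h5 := key1 _ h4
        rw [om_sq] at h5
        have e1 : x.re = 1 / 2 := by rw [h5]; simp; norm_num
        have e2 : x.im = Real.sqrt 3 / 2 := by rw [h5]; simp
        rw [e1, e2] at him
        nlinarith [s3]
      · have h5 := key1 _ h4
        rw [om_sq] at h5
        have e1 : x.re = -1 / 2 * a := by rw [h5]; simp
        rw [e1] at hre
        nlinarith
    · rcases hzero _ h3 with h4 | ⟨a, ha, h4⟩
      · have h5 := key2 _ h4
        have e1 : x.re = 1 / 2 := by rw [h5]; simp [om_re]; norm_num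
        have e2 : x.im = -(Real.sqrt 3 / 2) := by rw [h5]; simp [om_im]
        rw [e1, e2] at him
        nlinarith [s3]
      · have h5 := key2 _ h4
        have e1 : x.re = -1 / 2 * a := by rw [h5]; simp [om_re]
        rw [e1] at hre
        nlinarith

lemma strip_const : Strip (fun _ => (3 : ℂ)) 3 where
  L0 := by norm_num
  an := ⟨Real.pi / 3 + 1, by linarith, fun z _ => ⟨differentiableAt_const _, by norm_num⟩⟩
  conj := by intro z _; exact (Complex.conj_ofNat 3).symm
  pos := by intro u; norm_num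
  lim := ⟨0, 1, one_pos, by intro z _; simp⟩

lemma strip_F {n : ℕ} {θ : ℝ} {t Q : ℝ[X]} {z0 : ℝ} (h : SQ n θ t Q z0) (hr : S_rs) (hl : S_lim)
    {l : ℝ} (hl0 : 0 < l) (hl1 : l < 1) : Strip (fun z => 1 - sC n θ t ((l : ℂ) * z)) 3 := by
  obtain ⟨r1, r2, -⟩ := hr n θ t Q z0 h
  obtain ⟨⟨K, hK⟩, -, -, l4, -⟩ := hl n θ t Q z0 h
  have hp := Real.pi_pos
  have him : ∀ z : ℂ, ((l : ℂ) * z).im = l * z.im := fun z => by simp
  have hre : ∀ z : ℂ, ((l : ℂ) * z).re = l * z.re := fun z => by simp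
  refine ⟨by norm_num, ⟨Real.pi / 3 / l, ?_, ?_⟩, ?_, ?_, ⟨K, l, hl0, ?_⟩⟩
  · rw [lt_div_iff₀ hl0]
    nlinarith
  · intro z hz
    have h1 : |((l : ℂ) * z).im| < Real.pi / 3 := by
      rw [him, abs_mul, abs_of_pos hl0]
      rw [lt_div_iff₀ hl0] at hz
      linarith
    refine ⟨?_, one_sub_ne h h1⟩
    have h2 : DifferentiableAt ℂ (sC n θ t) ((l : ℂ) * z) := (r1 _ h1.le).1
    have h3 : DifferentiableAt ℂ (fun z : ℂ => (l : ℂ) * z) z := by fun_prop
    exact (differentiableAt_const _).sub (h2.comp z h3)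
  · intro z _
    have h1 : (l : ℂ) * (starRingEnd ℂ) z = (starRingEnd ℂ) ((l : ℂ) * z) := by
      rw [map_mul, Complex.conj_ofReal]
    simp only [h1, (r2 _).1, map_sub, map_one]
  · intro u
    have h1 := l4 (l * u)
    have h2 : (l : ℂ) * (u : ℂ) = ((l * u : ℝ) : ℂ) := by push_cast; ring
    simp only [h2, Complex.sub_re, Complex.one_re]
    linarith
  · intro z hz
    have h1 : |((l : ℂ) * z).im| ≤ Real.pi / 3 := by
      rw [him, abs_mul, abs_of_pos hl0]
      nlinarith [abs_nonneg z.im]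
    have h2 := (hK _ h1).1
    rw [hre, abs_mul, abs_of_pos hl0] at h2
    have h3 : 1 - sC n θ t ((l : ℂ) * z) - ((3 : ℝ) : ℂ) = -(sC n θ t ((l : ℂ) * z) + 2) := by
      push_cast; ring
    rw [h3, norm_neg]
    exact h2

/-- representation at a real point -/
lemma rep {F : ℂ → ℂ} {L : ℝ} (hst : S_strip) (hF : Strip F L) (u : ℝ) :
    Integrable (fun v : ℝ => kk (u - v) * Real.log (‖F (v + Real.pi / 3 * Complex.I)‖ ^ 2)) ∧
    Real.log (F u).re =
      ∫ v : ℝ, kk (u - v) * Real.log (‖F (v + Real.pi / 3 * Complex.I)‖ ^ 2) := by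
  have hp := Real.pi_pos
  obtain ⟨hi, he⟩ := hst F L hF (u : ℂ) (by rw [Complex.ofReal_im, abs_zero]; positivity)
  have hfun : (fun v : ℝ => kc ((u : ℂ) - v) *
      (Real.log (‖F (v + Real.pi / 3 * Complex.I)‖ ^ 2) : ℂ)) =
      fun v : ℝ => ((kk (u - v) * Real.log (‖F (v + Real.pi / 3 * Complex.I)‖ ^ 2) : ℝ) : ℂ) := by
    funext v
    rw [← Complex.ofReal_sub, kc_real]
    push_cast
    rfl
  rw [hfun] at hi he
  have hi' := hi.re
  simp only [RCLike.re_to_complex, Complex.ofReal_re] at hi'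
  refine ⟨hi', ?_⟩
  rw [he, integral_complex_ofReal, ← Complex.ofReal_exp, Complex.ofReal_re, Real.log_exp]

end H368

open H368 in
theorem cl_harn (hst : S_strip) (hr : S_rs) (hl : S_lim) (hb : S_bound) : S_harn := by
  intro n θ t Q z0 h l hl0 hl1 u v
  have hp := Real.pi_pos
  have hF := strip_F h hr hl hl0 hl1
  set F : ℂ → ℂ := fun z => 1 - sC n θ t ((l : ℂ) * z) with hFdef
  set m : ℝ → ℝ := fun x => Real.log (‖(3 : ℂ)‖ ^ 2) -
    Real.log (‖F (x + Real.pi / 3 * Complex.I)‖ ^ 2) with hm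
  -- nonnegativity
  have hm0 : ∀ x, 0 ≤ m x := by
    intro x
    have him : (((l : ℂ) * ((x : ℂ) + Real.pi / 3 * Complex.I)).im) = l * (Real.pi / 3) := by
      have : (Real.pi / 3 : ℂ) = ((Real.pi / 3 : ℝ) : ℂ) := by push_cast; rfl
      rw [this]
      simp
    have h1 : |(((l : ℂ) * ((x : ℂ) + Real.pi / 3 * Complex.I)).im)| < Real.pi / 3 := by
      rw [him, abs_of_pos (by positivity)]
      nlinarith
    have h2 := (hb n θ t Q z0 h).1 _ h1
    have h3 : ‖F (x + Real.pi / 3 * Complex.I)‖ ≤ 3 := by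
      simp only [hFdef]
      refine (norm_sub_le _ _).trans ?_
      rw [norm_one]
      linarith
    have h4 : F (x + Real.pi / 3 * Complex.I) ≠ 0 := one_sub_ne h h1
    have h5 : 0 < ‖F (x + Real.pi / 3 * Complex.I)‖ := norm_pos_iff.2 h4
    simp only [hm]
    rw [sub_nonneg]
    refine Real.log_le_log (by positivity) ?_
    have h6 : ‖(3 : ℂ)‖ = 3 := by norm_num
    rw [h6]
    exact pow_le_pow_left₀ h5.le h3 2
  -- representation of H
  have hH : ∀ x : ℝ, Integrable (fun y : ℝ => kk (x - y) * m y) ∧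
      Real.log 3 - Real.log (F x).re = ∫ y : ℝ, kk (x - y) * m y := by
    intro x
    obtain ⟨i1, e1⟩ := rep hst hF x
    obtain ⟨i2, e2⟩ := rep hst strip_const x
    have hfun : (fun y : ℝ => kk (x - y) * m y) = fun y : ℝ =>
        kk (x - y) * Real.log (‖(3 : ℂ)‖ ^ 2) -
          kk (x - y) * Real.log (‖F (y + Real.pi / 3 * Complex.I)‖ ^ 2) := by
      funext y
      simp only [hm]
      ring
    have e3 : Real.log 3 = Real.log ((3 : ℂ)).re := by norm_num
    refine ⟨by rw [hfun]; exact i2.sub i1, ?_⟩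
    rw [hfun, integral_sub i2 i1, e3, e2, e1]
  have hFu : ∀ x : ℝ, (F ((x / l : ℝ) : ℂ)).re = 1 - (sC n θ t (x : ℂ)).re := by
    intro x
    have : (l : ℂ) * ((x / l : ℝ) : ℂ) = (x : ℂ) := by
      rw [← Complex.ofReal_mul]
      congr 1
      field_simp
    simp only [hFdef, this, Complex.sub_re, Complex.one_re]
  obtain ⟨iu, eu⟩ := hH (u / l)
  obtain ⟨iv, ev⟩ := hH (v / l)
  rw [hFu] at eu ev
  rw [eu, ev, ← integral_const_mul]
  refine integral_mono iu (iv.const_mul _) fun y => ?_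
  have h1 := kk_shift (u / l - y) (v / l - y)
  have e1 : 3 / 2 * |u / l - y - (v / l - y)| = 3 / (2 * l) * |u - v| := by
    have : u / l - y - (v / l - y) = (u - v) / l := by ring
    rw [this, abs_div, abs_of_pos hl0]
    field_simp
  rw [e1] at h1
  have h2 := mul_le_mul_of_nonneg_right h1 (hm0 y)
  simpa only [mul_assoc] using h2

end W96CL
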